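import Mathlib

/-!
HC: the one step estimate.
-/

set_option autoImplicit false

namespace NUHC

open Finset

/-- the constants. -/
structure Cst (N r0 s e0 : ℝ) : Prop where
  s0 : 0 < s
  s1 : s ≤ 3 / 4
  h1 : N * ((1 + s) * Real.exp (s - 1 - (1 + s)⁻¹)) ≤ r0
  p0 : 0 < e0
  p1 : e0 ≤ 1 / 2
  p2 : e0 * (12 * N * Real.exp s) ≤ s / 3 * r0

lemma exists_cst {N r0 : ℝ} (hN : 0 ≤ N) (hr : 0 < r0) (h : N < Real.exp 2 * r0) : ∃ s e0, Cst N r0 s e0 := by
  have hc : ContinuousAt (fun s : ℝ => N * ((1 + s) * Real.exp (s - 1 - (1 + s)⁻¹))) 0 := by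
    apply ContinuousAt.mul continuousAt_const
    apply ContinuousAt.mul (by fun_prop)
    apply Real.continuous_exp.continuousAt.comp
    apply ContinuousAt.sub (by fun_prop)
    apply ContinuousAt.inv₀ (by fun_prop)
    norm_num
  have h0 : N * ((1 + (0 : ℝ)) * Real.exp (0 - 1 - (1 + (0 : ℝ))⁻¹)) < r0 := by
    have e : (0 : ℝ) - 1 - (1 + 0)⁻¹ = -2 := by norm_num
    rw [e, Real.exp_neg]
    have e2 : N * ((1 + 0) * (Real.exp 2)⁻¹) = N / Real.exp 2 := by
      rw [div_eq_mul_inv]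
      ring
    rw [e2, div_lt_iff₀ (Real.exp_pos _)]
    linarith
  have hev := hc.eventually (gt_mem_nhds h0)
  obtain ⟨δ, hδ, hδ2⟩ := Metric.eventually_nhds_iff.1 hev
  obtain ⟨s, hs⟩ : ∃ s, s = min (δ / 2) (3 / 4) := ⟨_, rfl⟩
  have s0 : 0 < s := by
    rw [hs]
    exact lt_min (by linarith) (by norm_num)
  have s1 : s ≤ 3 / 4 := by
    rw [hs]
    exact min_le_right _ _
  have s2 : s < δ := by
    have : s ≤ δ / 2 := by
      rw [hs]
      exact min_le_left _ _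
    linarith
  have h1 : N * ((1 + s) * Real.exp (s - 1 - (1 + s)⁻¹)) ≤ r0 := by
    apply le_of_lt
    apply hδ2
    rw [Real.dist_eq, sub_zero, abs_of_pos s0]
    exact s2
  have hq : 0 < 12 * N * Real.exp s + 1 := by
    have : 0 ≤ 12 * N * Real.exp s := mul_nonneg (by linarith) (Real.exp_pos _).le
    linarith
  have ht : 0 < s / 3 * r0 / (12 * N * Real.exp s + 1) := by positivity
  refine ⟨s, min (1 / 2) (s / 3 * r0 / (12 * N * Real.exp s + 1)), s0, s1, h1, lt_min (by norm_num) ht,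
    min_le_left _ _, ?_⟩
  have h3 : min (1 / 2) (s / 3 * r0 / (12 * N * Real.exp s + 1)) * (12 * N * Real.exp s) ≤
      (s / 3 * r0 / (12 * N * Real.exp s + 1)) * (12 * N * Real.exp s) :=
    mul_le_mul_of_nonneg_right (min_le_right _ _) (mul_nonneg (by linarith) (Real.exp_pos _).le)
  have h4 : (s / 3 * r0 / (12 * N * Real.exp s + 1)) * (12 * N * Real.exp s) ≤
      (s / 3 * r0 / (12 * N * Real.exp s + 1)) * (12 * N * Real.exp s + 1) :=
    mul_le_mul_of_nonneg_left (by linarith) ht.le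
  rw [div_mul_cancel₀ _ hq.ne'] at h4
  exact h3.trans h4

/-- the logarithm of a quotient. -/
lemma quot_log {p : ℝ} (hp : 0 ≤ p) {τ : ℂ} {v : ℂ} (hv : v = ((p / (1 + p) : ℝ) : ℂ) * (Complex.exp τ - 1))
    (h : ‖v‖ ≤ 1 / 2) : Complex.exp (Complex.log (1 + v)) * (1 + p) = 1 + p * Complex.exp τ ∧
      ‖Complex.log (1 + v)‖ ≤ ‖v‖ * (1 + ‖v‖) := by
  have h1 : 1 + v ≠ 0 := by
    intro h0
    have h2 : v = -1 := by
      rw [← sub_eq_zero, sub_neg_eq_add, add_comm]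
      exact h0
    rw [h2, norm_neg, norm_one] at h
    norm_num at h
  constructor
  · rw [Complex.exp_log h1, hv]
    have h3 : ((1 + p : ℝ) : ℂ) ≠ 0 := by
      have : (1 + p : ℝ) ≠ 0 := by positivity
      exact_mod_cast this
    have e : (((p / (1 + p) : ℝ)) : ℂ) * ((1 + p : ℝ) : ℂ) = (p : ℂ) := by
      rw [← Complex.ofReal_mul, div_mul_cancel₀]
      positivity
    have e2 : ((1 + p : ℝ) : ℂ) = 1 + (p : ℂ) := by push_cast; ring
    rw [← e2]
    calc (1 + ((p / (1 + p) : ℝ) : ℂ) * (Complex.exp τ - 1)) * ((1 + p : ℝ) : ℂ) =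
        ((1 + p : ℝ) : ℂ) + ((p / (1 + p) : ℝ) : ℂ) * ((1 + p : ℝ) : ℂ) * (Complex.exp τ - 1) := by ring
      _ = 1 + p * Complex.exp τ := by rw [e, e2]; ring
  · have h2 : ‖v‖ < 1 := by linarith
    have h3 := Complex.norm_log_one_add_le h2
    have h4 : (1 - ‖v‖)⁻¹ ≤ 2 := by
      rw [inv_le_comm₀ (by linarith) (by norm_num)]
      linarith
    have h5 : ‖v‖ ^ 2 * (1 - ‖v‖)⁻¹ / 2 ≤ ‖v‖ ^ 2 * 2 / 2 :=
      div_le_div_of_nonneg_right (mul_le_mul_of_nonneg_left h4 (by positivity)) (by norm_num)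
    calc ‖Complex.log (1 + v)‖ ≤ ‖v‖ ^ 2 * (1 - ‖v‖)⁻¹ / 2 + ‖v‖ := h3
      _ ≤ ‖v‖ ^ 2 * 2 / 2 + ‖v‖ := by linarith
      _ = ‖v‖ * (1 + ‖v‖) := by ring

lemma aux_b {t s : ℝ} (h0 : 0 ≤ t) (h1 : t ≤ 1 / 4) (h2 : t ≤ s / 3) : (1 + t) * (1 + t * (1 + t)) ≤ 1 + s := by
  have a1 : t * t ≤ t * (1 / 4) := mul_le_mul_of_nonneg_left h1 h0
  have a2 : t * t * t ≤ t * (1 / 4) * (1 / 4) := mul_le_mul a1 h1 h0 (by positivity)
  have e : (1 + t) * (1 + t * (1 + t)) = 1 + 2 * t + 2 * (t * t) + t * t * t := by ring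
  rw [e]
  linarith

/-- the one step estimate. -/
theorem one_step {N r0 s e0 : ℝ} (hC : Cst N r0 s e0) (hN : 0 ≤ N) (hr : 0 < r0) {ε x ω g q : ℝ} (hε : 0 < ε)
    (hε0 : ε ≤ e0) (hx : 0 ≤ x) (hxN : x ≤ N) (hω : 0 ≤ ω) (hg : 0 ≤ g) (hq : 0 ≤ q)
    (hu : r0 * ω * Real.exp g < 1) {p : ℝ} (hp : p = x * ω * Real.exp (-q)) {τ : ℂ}
    (hτ : ‖τ‖ ≤ ε * (s + (g + q))) :
    ∃ σ : ℂ, Complex.exp σ * (1 + p) = 1 + p * Complex.exp τ ∧
      ‖σ‖ ≤ ε * (-Real.log (1 - r0 * ω * Real.exp g) + Real.log (1 + p)) := by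
  obtain ⟨s0, s1, h1, e00, e1, e2⟩ := hC
  obtain ⟨y, hy⟩ : ∃ y, y = g + q := ⟨_, rfl⟩
  have hy0 : 0 ≤ y := by rw [hy]; linarith
  rw [← hy] at hτ
  have hp0 : 0 ≤ p := by rw [hp]; positivity
  obtain ⟨u, hudef⟩ : ∃ u, u = r0 * ω * Real.exp g := ⟨_, rfl⟩
  rw [← hudef] at hu ⊢
  have hu0 : 0 ≤ u := by rw [hudef]; positivity
  -- lower bound of the right side
  have hR : u + p / (1 + p) ≤ -Real.log (1 - u) + Real.log (1 + p) := by
    have a1 : Real.log (1 - u) ≤ 1 - u - 1 := Real.log_le_sub_one_of_pos (by linarith)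
    have a2 : 1 - (1 + p)⁻¹ ≤ Real.log (1 + p) := Real.one_sub_inv_le_log_of_pos (by linarith)
    have a3 : p / (1 + p) = 1 - (1 + p)⁻¹ := by
      field_simp
      ring
    rw [a3]
    linarith
  have hpp : p / (1 + p) ≤ p := by
    rw [div_le_iff₀ (by linarith)]
    nlinarith
  have hpp0 : 0 ≤ p / (1 + p) := by positivity
  have hpp1 : p / (1 + p) ≤ 1 := by
    rw [div_le_one (by linarith)]
    linarith
  -- p in terms of u
  have hpu : p * r0 ≤ N * u * Real.exp (-y) := by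
    rw [hp, hudef, hy]
    have e : Real.exp g * Real.exp (-(g + q)) = Real.exp (-q) := by
      rw [← Real.exp_add]
      congr 1
      ring
    calc x * ω * Real.exp (-q) * r0 ≤ N * ω * Real.exp (-q) * r0 := by gcongr
      _ = N * (r0 * ω * Real.exp g) * Real.exp (-(g + q)) := by
        rw [← e]
        ring
  obtain ⟨v, hv⟩ : ∃ v, v = ((p / (1 + p) : ℝ) : ℂ) * (Complex.exp τ - 1) := ⟨_, rfl⟩
  have hvn : ‖v‖ = p / (1 + p) * ‖Complex.exp τ - 1‖ := by
    rw [hv, norm_mul, Complex.norm_real, Real.norm_of_nonneg hpp0]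
  rcases le_or_gt (ε * (s + y)) (s / 3) with hA | hB
  · -- small τ
    have t1 : ‖τ‖ ≤ s / 3 := hτ.trans hA
    have t2 : ‖τ‖ ≤ 1 / 4 := by linarith
    have t3 : ‖Complex.exp τ - 1‖ ≤ ‖τ‖ * (1 + ‖τ‖) := by
      have a1 := Complex.norm_exp_sub_one_sub_id_le (x := τ) (by linarith)
      have a2 : ‖Complex.exp τ - 1‖ ≤ ‖Complex.exp τ - 1 - τ‖ + ‖τ‖ := by
        have : Complex.exp τ - 1 = (Complex.exp τ - 1 - τ) + τ := by ring
        calc ‖Complex.exp τ - 1‖ = ‖(Complex.exp τ - 1 - τ) + τ‖ := by rw [← this]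
          _ ≤ _ := norm_add_le _ _
      nlinarith [norm_nonneg τ]
    have t0 := norm_nonneg τ
    have v1 : ‖v‖ ≤ p / (1 + p) * (‖τ‖ * (1 + ‖τ‖)) := by
      rw [hvn]
      exact mul_le_mul_of_nonneg_left t3 hpp0
    have v2 : ‖v‖ ≤ ‖τ‖ * (1 + ‖τ‖) := by
      refine v1.trans ?_
      have : 0 ≤ ‖τ‖ * (1 + ‖τ‖) := by positivity
      nlinarith
    have v3 : ‖v‖ ≤ 1 / 2 := by nlinarith
    obtain ⟨w1, w2⟩ := quot_log hp0 hv v3
    refine ⟨_, w1, w2.trans ?_⟩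
    have v4 : ‖v‖ * (1 + ‖v‖) ≤ p / (1 + p) * ‖τ‖ * (1 + s) := by
      have b1 : 1 + ‖v‖ ≤ 1 + ‖τ‖ * (1 + ‖τ‖) := by linarith
      have b2 : (1 + ‖τ‖) * (1 + ‖τ‖ * (1 + ‖τ‖)) ≤ 1 + s := aux_b t0 t2 t1
      calc ‖v‖ * (1 + ‖v‖) ≤ (p / (1 + p) * (‖τ‖ * (1 + ‖τ‖))) * (1 + ‖τ‖ * (1 + ‖τ‖)) :=
            mul_le_mul v1 b1 (by positivity) (by positivity)
        _ = p / (1 + p) * ‖τ‖ * ((1 + ‖τ‖) * (1 + ‖τ‖ * (1 + ‖τ‖))) := by ring
        _ ≤ p / (1 + p) * ‖τ‖ * (1 + s) := mul_le_mul_of_nonneg_left b2 (by positivity)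
    refine v4.trans ?_
    have v5 : p / (1 + p) * ‖τ‖ * (1 + s) ≤ ε * (p / (1 + p) * ((s + y) * (1 + s))) := by
      calc p / (1 + p) * ‖τ‖ * (1 + s) ≤ p / (1 + p) * (ε * (s + y)) * (1 + s) := by gcongr
        _ = ε * (p / (1 + p) * ((s + y) * (1 + s))) := by ring
    refine v5.trans (mul_le_mul_of_nonneg_left (le_trans ?_ hR) hε.le)
    -- p' (κ (s + y) - 1) ≤ u
    suffices hs : p / (1 + p) * ((s + y) * (1 + s) - 1) ≤ u by
      have e : p / (1 + p) * ((s + y) * (1 + s)) = p / (1 + p) * ((s + y) * (1 + s) - 1) + p / (1 + p) := by ring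
      rw [e]
      linarith
    rcases le_or_gt ((s + y) * (1 + s) - 1) 0 with hn | hn
    · exact (mul_nonpos_of_nonneg_of_nonpos hpp0 hn).trans hu0
    · have k1 : (s + y) * (1 + s) - 1 ≤ (1 + s) * Real.exp (y + (s - 1 - (1 + s)⁻¹)) := by
        have := Real.add_one_le_exp (y + (s - 1 - (1 + s)⁻¹))
        have h1s : (1 + s) * (1 + s)⁻¹ = 1 := mul_inv_cancel₀ (by linarith)
        nlinarith
      have k2 : N * ((s + y) * (1 + s) - 1) ≤ r0 * Real.exp y := by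
        calc N * ((s + y) * (1 + s) - 1) ≤ N * ((1 + s) * Real.exp (y + (s - 1 - (1 + s)⁻¹))) :=
              mul_le_mul_of_nonneg_left k1 hN
          _ = N * ((1 + s) * Real.exp (s - 1 - (1 + s)⁻¹)) * Real.exp y := by
            rw [Real.exp_add]
            ring
          _ ≤ r0 * Real.exp y := mul_le_mul_of_nonneg_right h1 (Real.exp_pos _).le
      have k3 : p / (1 + p) * ((s + y) * (1 + s) - 1) * r0 ≤ u * r0 := by
        calc p / (1 + p) * ((s + y) * (1 + s) - 1) * r0 ≤ p * ((s + y) * (1 + s) - 1) * r0 := by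
              gcongr
          _ = (p * r0) * ((s + y) * (1 + s) - 1) := by ring
          _ ≤ (N * u * Real.exp (-y)) * ((s + y) * (1 + s) - 1) := mul_le_mul_of_nonneg_right hpu hn.le
          _ = u * Real.exp (-y) * (N * ((s + y) * (1 + s) - 1)) := by ring
          _ ≤ u * Real.exp (-y) * (r0 * Real.exp y) := mul_le_mul_of_nonneg_left k2 (by positivity)
          _ = u * r0 * (Real.exp (-y) * Real.exp y) := by ring
          _ = u * r0 := by rw [← Real.exp_add, neg_add_cancel, Real.exp_zero, mul_one]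
      exact le_of_mul_le_mul_right k3 hr
  · -- large y
    obtain ⟨Y, hY⟩ : ∃ Y, Y = s + y := ⟨_, rfl⟩
    rw [← hY] at hB hτ
    have hY0 : 0 < Y := by rw [hY]; linarith
    have hε1 : ε ≤ 1 / 2 := hε0.trans e1
    -- 12 N e^s ≤ r0 Y
    have c1 : 12 * N * Real.exp s ≤ r0 * Y := by
      have a1 : ε * (12 * N * Real.exp s) ≤ s / 3 * r0 :=
        (mul_le_mul_of_nonneg_right hε0 (by positivity)).trans e2
      have a2 : s / 3 * r0 ≤ ε * Y * r0 := mul_le_mul_of_nonneg_right hB.le hr.le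
      have a3 : ε * (12 * N * Real.exp s) ≤ ε * (r0 * Y) := by linarith
      exact le_of_mul_le_mul_left a3 hε
    have c2 : Y ^ 2 / 8 ≤ Real.exp (Y / 2) := by
      have := Real.quadratic_le_exp_of_nonneg (x := Y / 2) (by linarith)
      nlinarith
    -- 3/2 N Y e^{εY} ≤ r0 e^y
    have c3 : 3 / 2 * N * Y * Real.exp (ε * Y) ≤ r0 * Real.exp y := by
      have a1 : Real.exp (ε * Y) ≤ Real.exp (Y / 2) := Real.exp_le_exp.2 (by nlinarith)
      have a2 : Real.exp s * Real.exp y = Real.exp (Y / 2) * Real.exp (Y / 2) := by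
        rw [← Real.exp_add, ← Real.exp_add, hY]
        congr 1
        ring
      have a3 : 3 / 2 * N * Y * Real.exp s ≤ r0 * Real.exp (Y / 2) := by
        calc 3 / 2 * N * Y * Real.exp s = (12 * N * Real.exp s) * Y / 8 := by ring
          _ ≤ (r0 * Y) * Y / 8 := by
            apply div_le_div_of_nonneg_right _ (by norm_num)
            exact mul_le_mul_of_nonneg_right c1 hY0.le
          _ = r0 * (Y ^ 2 / 8) := by ring
          _ ≤ r0 * Real.exp (Y / 2) := mul_le_mul_of_nonneg_left c2 hr.le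
      have a4 : 3 / 2 * N * Y * Real.exp (ε * Y) * Real.exp s ≤ r0 * Real.exp y * Real.exp s := by
        calc 3 / 2 * N * Y * Real.exp (ε * Y) * Real.exp s = (3 / 2 * N * Y * Real.exp s) * Real.exp (ε * Y) := by ring
          _ ≤ (r0 * Real.exp (Y / 2)) * Real.exp (Y / 2) := mul_le_mul a3 a1 (Real.exp_pos _).le (by positivity)
          _ = r0 * (Real.exp (Y / 2) * Real.exp (Y / 2)) := by ring
          _ = r0 * Real.exp y * Real.exp s := by
            rw [← a2]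
            ring
      exact le_of_mul_le_mul_right a4 (Real.exp_pos s)
    -- 3/2 p Y e^{εY} ≤ u
    have c4 : 3 / 2 * p * Y * Real.exp (ε * Y) ≤ u := by
      have a1 : 3 / 2 * p * Y * Real.exp (ε * Y) * r0 ≤ u * r0 := by
        calc 3 / 2 * p * Y * Real.exp (ε * Y) * r0 = (p * r0) * (3 / 2 * Y * Real.exp (ε * Y)) := by ring
          _ ≤ (N * u * Real.exp (-y)) * (3 / 2 * Y * Real.exp (ε * Y)) :=
            mul_le_mul_of_nonneg_right hpu (by positivity)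
          _ = u * Real.exp (-y) * (3 / 2 * N * Y * Real.exp (ε * Y)) := by ring
          _ ≤ u * Real.exp (-y) * (r0 * Real.exp y) := mul_le_mul_of_nonneg_left c3 (by positivity)
          _ = u * r0 * (Real.exp (-y) * Real.exp y) := by ring
          _ = u * r0 := by rw [← Real.exp_add, neg_add_cancel, Real.exp_zero, mul_one]
      exact le_of_mul_le_mul_right a1 hr
    have t3 : ‖Complex.exp τ - 1‖ ≤ ε * Y * Real.exp (ε * Y) := by
      have a1 := Complex.norm_exp_sub_sum_le_norm_mul_exp τ 1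
      rw [Finset.sum_range_one, pow_zero, Nat.factorial_zero, Nat.cast_one, div_one, pow_one] at a1
      refine a1.trans (mul_le_mul hτ (Real.exp_le_exp.2 hτ) (Real.exp_pos _).le (by positivity))
    have v1 : ‖v‖ ≤ ε * (p * Y * Real.exp (ε * Y)) := by
      rw [hvn]
      calc p / (1 + p) * ‖Complex.exp τ - 1‖ ≤ p * (ε * Y * Real.exp (ε * Y)) :=
            mul_le_mul hpp t3 (norm_nonneg _) hp0
        _ = ε * (p * Y * Real.exp (ε * Y)) := by ring
    have hW0 : 0 ≤ p * Y * Real.exp (ε * Y) := by positivity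
    have v2 : ‖v‖ ≤ 1 / 2 := by nlinarith
    obtain ⟨w1, w2⟩ := quot_log hp0 hv v2
    refine ⟨_, w1, w2.trans ?_⟩
    have v3 : ‖v‖ * (1 + ‖v‖) ≤ ε * (p * Y * Real.exp (ε * Y)) * (3 / 2) := by
      apply mul_le_mul v1 (by linarith) (by positivity) (by positivity)
    refine v3.trans ?_
    have v4 : ε * (p * Y * Real.exp (ε * Y)) * (3 / 2) ≤ ε * u := by
      calc ε * (p * Y * Real.exp (ε * Y)) * (3 / 2) = ε * (3 / 2 * p * Y * Real.exp (ε * Y)) := by ring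
        _ ≤ ε * u := mul_le_mul_of_nonneg_left c4 hε.le
    refine v4.trans (mul_le_mul_of_nonneg_left ?_ hε.le)
    linarith

end NUHC
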