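import Pool.Agent.NUF.HC.Poly
import Pool.Agent.NUF.HC.Step

/-!
HC: if the partition function of a finite hard-core gas is positive for the activities -r w, 0 ≤ r ≤ r0, then it has
no zeros near [0, N], N < e^2 r0, in a neighbourhood that depends on N, r0 only (helper90's theorem).
-/

set_option autoImplicit false
set_option linter.unusedSectionVars false

namespace NUHC

open Finset

open scoped Classical

section

variable {V : Type*} {inc : V → V → Prop}

lemma P_real (a : V → ℝ) (L : Finset V) : P inc (fun l => (a l : ℂ)) L = ((P inc a L : ℝ) : ℂ) := by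
  unfold P
  push_cast
  rfl

lemma P_nn {a : V → ℝ} (ha : ∀ l, 0 ≤ a l) {L L' : Finset V} (h : L' ⊆ L) : P inc a L' ≤ P inc a L := by
  unfold P
  apply Finset.sum_le_sum_of_subset_of_nonneg
  · intro I hI
    rw [Finset.mem_filter, Finset.mem_powerset] at hI ⊢
    exact ⟨hI.1.trans h, hI.2⟩
  · intro I _ _
    exact Finset.prod_nonneg (fun l _ => ha l)

lemma one_le_PH {a : V → ℝ} (ha : ∀ l, 0 ≤ a l) (L : Finset V) : 1 ≤ P inc a L := by
  rw [← P_empty (inc := inc) a]
  exact P_nn ha (Finset.empty_subset L)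

/-- the comparison of two sets. -/
theorem pair {N r0 s e0 : ℝ} (hC : Cst N r0 s e0) (hN : 0 ≤ N) (hr : 0 < r0) {ε x : ℝ} (hε : 0 < ε)
    (hε0 : ε ≤ e0) (hx : 0 ≤ x) (hxN : x ≤ N) (hs : ∀ a b, inc a b → inc b a) {w : V → ℝ} (hw : ∀ l, 0 ≤ w l)
    {Λ : Finset V} (hS : Sh inc (fun l => r0 * w l) Λ) {ζ : ℂ} (hζ : ‖ζ‖ ≤ ε * s) {z : ℂ}
    (hz : z = x * Complex.exp ζ) {L L' : Finset V} (hL : L ⊆ Λ) (hL' : L' ⊆ L) :
    ∃ τ : ℂ, P inc (fun l => z * w l) L / (P inc (fun l => x * w l) L : ℝ) =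
        Complex.exp τ * (P inc (fun l => z * w l) L' / (P inc (fun l => x * w l) L' : ℝ)) ∧
      ‖τ‖ ≤ ε * ((-Real.log (P inc (fun l => -(r0 * w l)) L) + Real.log (P inc (fun l => x * w l) L)) -
        (-Real.log (P inc (fun l => -(r0 * w l)) L') + Real.log (P inc (fun l => x * w l) L'))) := by
  have hxw : ∀ l, 0 ≤ x * w l := fun l => mul_nonneg hx (hw l)
  have hrw : ∀ l, 0 ≤ r0 * w l := fun l => mul_nonneg hr.le (hw l)
  induction hn : L.card using Nat.strong_induction_on generalizing L L' with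
  | _ n ih =>
    by_cases he : L ⊆ L'
    · have h2 : L = L' := Finset.Subset.antisymm he hL'
      refine ⟨0, ?_, ?_⟩
      · rw [h2, Complex.exp_zero, one_mul]
      · rw [h2, sub_self, mul_zero, norm_zero]
    · obtain ⟨l, hl1, hl2⟩ := Finset.not_subset.1 he
      obtain ⟨M, hM⟩ : ∃ M, M = L.erase l := ⟨_, rfl⟩
      have h3 : L' ⊆ M := by
        rw [hM]
        exact fun a ha => Finset.mem_erase.2 ⟨fun h => hl2 (h ▸ ha), hL' ha⟩
      have h4 : M.card < n := by
        rw [hM, ← hn]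
        exact Finset.card_erase_lt_of_mem hl1
      have hML : M ⊆ Λ := by
        rw [hM]
        exact (Finset.erase_subset _ _).trans hL
      obtain ⟨K, hK⟩ : ∃ K, K = cp inc l M := ⟨_, rfl⟩
      have hKM : K ⊆ M := by
        rw [hK]
        exact cp_sub l M
      obtain ⟨τ1, t1, t2⟩ := ih _ h4 hML h3 rfl
      obtain ⟨τ2, t3, t4⟩ := ih _ h4 hML hKM rfl
      -- the numbers
      have e1 := P_erase hs (fun l => z * (w l : ℂ)) hl1
      have e2 := P_erase hs (fun l => x * w l) hl1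
      have e3 := P_erase hs (fun l => -(r0 * w l)) hl1
      rw [← hM, ← hK] at e1 e2 e3
      have bL := hS L hL
      have bM := hS M hML
      have bK := hS K (hKM.trans hML)
      have aL := one_le_PH (inc := inc) hxw L
      have aM := one_le_PH (inc := inc) hxw M
      have aK := one_le_PH (inc := inc) hxw K
      obtain ⟨zL, hzL⟩ : ∃ a, a = P inc (fun l => z * (w l : ℂ)) L := ⟨_, rfl⟩
      obtain ⟨zM, hzM⟩ : ∃ a, a = P inc (fun l => z * (w l : ℂ)) M := ⟨_, rfl⟩
      obtain ⟨zK, hzK⟩ : ∃ a, a = P inc (fun l => z * (w l : ℂ)) K := ⟨_, rfl⟩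
      obtain ⟨xL, hxL⟩ : ∃ a, a = P inc (fun l => x * w l) L := ⟨_, rfl⟩
      obtain ⟨xM, hxM⟩ : ∃ a, a = P inc (fun l => x * w l) M := ⟨_, rfl⟩
      obtain ⟨xK, hxK⟩ : ∃ a, a = P inc (fun l => x * w l) K := ⟨_, rfl⟩
      obtain ⟨rL, hrL⟩ : ∃ a, a = P inc (fun l => -(r0 * w l)) L := ⟨_, rfl⟩
      obtain ⟨rM, hrM⟩ : ∃ a, a = P inc (fun l => -(r0 * w l)) M := ⟨_, rfl⟩
      obtain ⟨rK, hrK⟩ : ∃ a, a = P inc (fun l => -(r0 * w l)) K := ⟨_, rfl⟩
      rw [← hzL, ← hzM, ← hzK] at e1
      rw [← hxL, ← hxM, ← hxK] at e2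
      rw [← hrL, ← hrM, ← hrK] at e3
      rw [← hrL] at bL
      rw [← hrM] at bM
      rw [← hrK] at bK
      rw [← hxL] at aL
      rw [← hxM] at aM
      rw [← hxK] at aK
      rw [← hzM, ← hxM] at t1
      rw [← hxM, ← hrM] at t2
      rw [← hzM, ← hzK, ← hxM, ← hxK] at t3
      rw [← hxM, ← hrM, ← hxK, ← hrK] at t4
      have xMp : 0 < xM := by linarith
      have xKp : 0 < xK := by linarith
      have xLp : 0 < xL := by linarith
      have hxKM : xK ≤ xM := by
        rw [hxK, hxM]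
        exact P_nn hxw hKM
      have hrKM : rM ≤ rK := by
        rw [hrM, hrK]
        exact hS.anti hs hrw hML hKM
      have hq0 : 0 ≤ Real.log xM - Real.log xK := by
        have := Real.log_le_log xKp hxKM
        linarith
      have hg0 : 0 ≤ Real.log rK - Real.log rM := by
        have := Real.log_le_log bM hrKM
        linarith
      have hexpq : Real.exp (-(Real.log xM - Real.log xK)) = xK / xM := by
        rw [neg_sub, Real.exp_sub, Real.exp_log xKp, Real.exp_log xMp]
      have hexpg : Real.exp (Real.log rK - Real.log rM) = rK / rM := by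
        rw [Real.exp_sub, Real.exp_log bK, Real.exp_log bM]
      have hu : r0 * w l * Real.exp (Real.log rK - Real.log rM) < 1 := by
        rw [hexpg, ← mul_div_assoc, div_lt_one bM]
        have e4 : rL = rM - r0 * w l * rK := by
          rw [e3]
          ring
        linarith
      have hrq : rL / rM = 1 - r0 * w l * Real.exp (Real.log rK - Real.log rM) := by
        rw [hexpg, e3, div_eq_iff bM.ne']
        field_simp
        ring
      obtain ⟨p, hp⟩ : ∃ p, p = x * w l * Real.exp (-(Real.log xM - Real.log xK)) := ⟨_, rfl⟩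
      have hp0 : 0 ≤ p := by
        rw [hp]
        have := hw l
        positivity
      have hxq : xL = xM * (1 + p) := by
        rw [hp, hexpq, e2]
        field_simp
      have hτ : ‖ζ - τ2‖ ≤ ε * (s + ((Real.log rK - Real.log rM) + (Real.log xM - Real.log xK))) := by
        calc ‖ζ - τ2‖ ≤ ‖ζ‖ + ‖τ2‖ := norm_sub_le _ _
          _ ≤ ε * s + ε * ((-Real.log rM + Real.log xM) - (-Real.log rK + Real.log xK)) := add_le_add hζ t4
          _ = _ := by ring
      obtain ⟨σ, s1, s2⟩ := one_step hC hN hr hε hε0 hx hxN (hw l) hg0 hq0 hu hp hτ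
      refine ⟨σ + τ1, ?_, ?_⟩
      · rw [← hzL, ← hxL]
        have xMc : (xM : ℂ) ≠ 0 := by exact_mod_cast xMp.ne'
        have xKc : (xK : ℂ) ≠ 0 := by exact_mod_cast xKp.ne'
        have pc : (1 + (p : ℂ)) ≠ 0 := by
          have : (1 + p : ℝ) ≠ 0 := by positivity
          exact_mod_cast this
        -- zK in terms of zM
        have k1 : zK = Complex.exp (-τ2) * (zM / xM) * xK := by
          rw [t3, Complex.exp_neg]
          field_simp
        have k2 : (p : ℂ) = x * w l * (xK / xM) := by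
          rw [hp, hexpq]
          push_cast
          ring
        have k3 : (xL : ℂ) = xM * (1 + p) := by
          rw [hxq]
          push_cast
          ring
        have k4 : zL = zM * (1 + p * Complex.exp (ζ - τ2)) := by
          rw [e1, k1, k2, hz, sub_eq_add_neg, Complex.exp_add]
          field_simp
        have k5 : zL / xL = Complex.exp σ * (zM / xM) := by
          rw [k4, k3, ← s1]
          field_simp
        rw [k5, t1, Complex.exp_add]
        ring
      · rw [← hrL, ← hxL]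
        have l1 : Real.log xL = Real.log xM + Real.log (1 + p) := by
          rw [hxq, Real.log_mul xMp.ne' (by positivity)]
        have l2 : Real.log rL = Real.log rM + Real.log (1 - r0 * w l * Real.exp (Real.log rK - Real.log rM)) := by
          rw [← hrq, Real.log_div bL.ne' bM.ne']
          ring
        calc ‖σ + τ1‖ ≤ ‖σ‖ + ‖τ1‖ := norm_add_le _ _
          _ ≤ ε * (-Real.log (1 - r0 * w l * Real.exp (Real.log rK - Real.log rM)) + Real.log (1 + p)) +
              ε * ((-Real.log rM + Real.log xM) -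
                (-Real.log (P inc (fun l => -(r0 * w l)) L') + Real.log (P inc (fun l => x * w l) L'))) :=
            add_le_add s2 t2
          _ = _ := by
            rw [l1, l2]
            ring

/-- the lower bound at one point. -/
theorem lower_x {N r0 s e0 : ℝ} (hC : Cst N r0 s e0) (hN : 0 ≤ N) (hr : 0 < r0) {x : ℝ}
    (hx : 0 ≤ x) (hxN : x ≤ N) (hs : ∀ a b, inc a b → inc b a) {w : V → ℝ} (hw : ∀ l, 0 ≤ w l)
    {Λ : Finset V} (hS : Sh inc (fun l => r0 * w l) Λ) {ζ : ℂ} (hζ : ‖ζ‖ ≤ e0 * s) :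
    P inc (fun l => -(r0 * w l)) Λ ≤ ‖P inc (fun l => (x * Complex.exp ζ) * w l) Λ‖ := by
  obtain ⟨τ, h1, h2⟩ := pair hC hN hr hC.p0 le_rfl hx hxN hs hw hS hζ rfl (Finset.Subset.refl Λ)
    (Finset.empty_subset Λ)
  have hxw : ∀ l, 0 ≤ x * w l := fun l => mul_nonneg hx (hw l)
  have hrw : ∀ l, 0 ≤ r0 * w l := fun l => mul_nonneg hr.le (hw l)
  rw [P_empty, P_empty] at h2
  rw [P_empty, P_empty] at h1
  have aL := one_le_PH (inc := inc) hxw Λ
  have bL := hS Λ (Finset.Subset.refl Λ)
  have b1 := hS.le_one hs hrw (Finset.Subset.refl Λ)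
  obtain ⟨xL, hxL⟩ : ∃ a, a = P inc (fun l => x * w l) Λ := ⟨_, rfl⟩
  obtain ⟨rL, hrL⟩ : ∃ a, a = P inc (fun l => -(r0 * w l)) Λ := ⟨_, rfl⟩
  rw [← hxL] at h1 h2 aL
  rw [← hrL] at h2 bL b1 ⊢
  have xLp : 0 < xL := by linarith
  have xc : (xL : ℂ) ≠ 0 := by exact_mod_cast xLp.ne'
  have h3 : P inc (fun l => (x * Complex.exp ζ) * (w l : ℂ)) Λ = Complex.exp τ * xL := by
    rw [div_eq_iff xc] at h1
    rw [h1]
    simp
  rw [h3, norm_mul, Complex.norm_exp, Complex.norm_real, Real.norm_of_nonneg xLp.le]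
  have h4 : -(-Real.log rL + Real.log xL) ≤ τ.re := by
    have a1 : -‖τ‖ ≤ τ.re := (abs_le.1 (Complex.abs_re_le_norm τ)).1
    have a2 : 0 ≤ -Real.log rL + Real.log xL := by
      have := Real.log_nonpos bL.le b1
      have := Real.log_nonneg aL
      linarith
    have a3 : ‖τ‖ ≤ -Real.log rL + Real.log xL := by
      refine h2.trans ?_
      rw [Real.log_one, neg_zero, add_zero, sub_zero]
      have := hC.p1
      have := hC.p0
      nlinarith
    linarith
  calc rL = Real.exp (-(-Real.log rL + Real.log xL)) * xL := by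
        rw [neg_add, neg_neg, ← sub_eq_add_neg, Real.exp_sub, Real.exp_log bL, Real.exp_log xLp,
          div_mul_cancel₀ _ xLp.ne']
    _ ≤ Real.exp τ.re * xL := mul_le_mul_of_nonneg_right (Real.exp_le_exp.2 h4) xLp.le

end

/-- uniform neighbourhood without zeros. -/
theorem zero_free {N r0 : ℝ} (hN : 0 ≤ N) (hr : 0 < r0) (h : N < Real.exp 2 * r0) :
    ∃ δ : ℝ, 0 < δ ∧ ∀ (V : Type) (inc : V → V → Prop) (w : V → ℝ) (Λ : Finset V),
      (∀ a b, inc a b → inc b a) → (∀ l, 0 ≤ w l) →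
      (∀ r : ℝ, 0 ≤ r → r ≤ r0 → 0 < P inc (fun l => -(r * w l)) Λ) →
      ∀ x : ℝ, 0 ≤ x → x ≤ N → ∀ z : ℂ, ‖z - x‖ ≤ δ →
        P inc (fun l => -(r0 * w l)) Λ ≤ ‖P inc (fun l => z * (w l : ℂ)) Λ‖ := by
  obtain ⟨s, e0, hC⟩ := exists_cst hN hr h
  have he := mul_pos hC.p0 hC.s0
  refine ⟨min (r0 / 4) (e0 * s / 2 * (r0 / 4)), lt_min (by positivity) (by positivity), ?_⟩
  intro V inc w Λ hs hw hpos x hx hxN z hz
  have hS := shearer hs hw hpos hr.le le_rfl
  have hrw : ∀ l, 0 ≤ r0 * w l := fun l => mul_nonneg hr.le (hw l)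
  have hd1 : ‖z - x‖ ≤ r0 / 4 := hz.trans (min_le_left _ _)
  have hd2 : ‖z - x‖ ≤ e0 * s / 2 * (r0 / 4) := hz.trans (min_le_right _ _)
  rcases le_or_gt x (r0 / 2) with hx1 | hx1
  · -- small x
    have h1 : ‖z‖ ≤ r0 := by
      have e : z = (z - x) + x := by ring
      calc ‖z‖ = ‖(z - x) + x‖ := by rw [← e]
        _ ≤ ‖z - x‖ + ‖(x : ℂ)‖ := norm_add_le _ _
        _ ≤ r0 / 4 + r0 / 2 := by
          apply add_le_add hd1
          rw [Complex.norm_real, Real.norm_of_nonneg hx]
          exact hx1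
        _ ≤ r0 := by linarith
    have h2 := lower (a := fun l => z * (w l : ℂ)) (b := fun l => r0 * w l) hs (fun l => by
      rw [norm_mul, Complex.norm_real, Real.norm_of_nonneg (hw l)]
      exact mul_le_mul_of_nonneg_right h1 (hw l)) hS (Finset.Subset.refl Λ) (Finset.empty_subset Λ)
    rw [P_empty, P_empty, norm_one, one_mul, mul_one] at h2
    exact h2
  · have hx0 : 0 < x := by linarith
    have xc : (x : ℂ) ≠ 0 := by exact_mod_cast hx0.ne'
    obtain ⟨v, hv⟩ : ∃ v, v = (z - x) / x := ⟨_, rfl⟩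
    have hvn : ‖v‖ ≤ e0 * s / 2 := by
      rw [hv, norm_div, Complex.norm_real, Real.norm_of_nonneg hx, div_le_iff₀ hx0]
      refine hd2.trans (mul_le_mul_of_nonneg_left ?_ (by positivity))
      linarith
    have hes : e0 * s ≤ 1 / 2 := by
      have a1 := hC.p1
      have a2 := hC.s1
      have a3 := hC.p0
      have a4 := hC.s0
      nlinarith
    have hv2 : ‖v‖ < 1 := by linarith
    have h1v : 1 + v ≠ 0 := by
      intro h0
      have h2 : v = -1 := by
        rw [← sub_eq_zero, sub_neg_eq_add, add_comm]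
        exact h0
      rw [h2, norm_neg, norm_one] at hv2
      exact lt_irrefl _ hv2
    have hz2 : z = x * Complex.exp (Complex.log (1 + v)) := by
      rw [Complex.exp_log h1v, hv]
      field_simp
      ring
    have hζ : ‖Complex.log (1 + v)‖ ≤ e0 * s := by
      have h3 := Complex.norm_log_one_add_le hv2
      have h4 : (1 - ‖v‖)⁻¹ ≤ 2 := by
        rw [inv_le_comm₀ (by linarith) (by norm_num)]
        linarith
      have h5 : ‖v‖ ^ 2 * (1 - ‖v‖)⁻¹ / 2 ≤ ‖v‖ ^ 2 * 2 / 2 :=
        div_le_div_of_nonneg_right (mul_le_mul_of_nonneg_left h4 (by positivity)) (by norm_num)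
      have h6 : ‖v‖ ^ 2 ≤ ‖v‖ := by nlinarith [norm_nonneg v]
      linarith
    rw [hz2]
    exact lower_x hC hN hr hx hxN hs hw hS hζ

end NUHC
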