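import Mathlib

/-!
HC: finite hard-core gas (independence polynomial with weights), Shearer / Scott-Sokal region.
-/

set_option autoImplicit false
set_option linter.unusedSectionVars false

namespace NUHC

open Finset

open scoped Classical

variable {V : Type*} {inc : V → V → Prop}

/-- compatible sets. -/
def Ind (inc : V → V → Prop) (I : Finset V) : Prop := ∀ a ∈ I, ∀ b ∈ I, a ≠ b → ¬ inc a b

/-- the partition function with the activities a. -/
noncomputable def P {R : Type*} [CommSemiring R] (inc : V → V → Prop) (a : V → R) (L : Finset V) : R :=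
  ∑ I ∈ L.powerset.filter (Ind inc), ∏ l ∈ I, a l

/-- the elements of L that are compatible with l. -/
noncomputable def cp (inc : V → V → Prop) (l : V) (L : Finset V) : Finset V := L.filter (fun b => ¬ inc l b)

lemma cp_sub (l : V) (L : Finset V) : cp inc l L ⊆ L := Finset.filter_subset _ _

lemma Ind_empty : Ind inc (∅ : Finset V) := fun a ha => absurd ha (Finset.notMem_empty a)

lemma P_empty {R : Type*} [CommSemiring R] (a : V → R) : P inc a (∅ : Finset V) = 1 := by
  unfold P
  have h : (∅ : Finset V).powerset.filter (Ind inc) = {∅} := by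
    ext I
    rw [Finset.mem_filter, Finset.mem_powerset, Finset.mem_singleton, Finset.subset_empty]
    constructor
    · exact fun h => h.1
    · rintro rfl
      exact ⟨rfl, Ind_empty⟩
  rw [h, Finset.sum_singleton, Finset.prod_empty]

/-- the recursion. -/
lemma P_insert {R : Type*} [CommSemiring R] (hs : ∀ a b, inc a b → inc b a) (a : V → R) {l : V} {L : Finset V}
    (hl : l ∉ L) : P inc a (insert l L) = P inc a L + a l * P inc a (cp inc l L) := by
  unfold P
  rw [Finset.sum_filter, Finset.sum_filter, Finset.sum_filter, Finset.sum_powerset_insert hl]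
  congr 1
  have hsub : (cp inc l L).powerset ⊆ L.powerset := Finset.powerset_mono.2 (cp_sub l L)
  rw [← Finset.sum_subset hsub (f := fun t => if Ind inc (insert l t) then ∏ i ∈ insert l t, a i else 0),
    Finset.mul_sum]
  · apply Finset.sum_congr rfl
    intro t ht
    rw [Finset.mem_powerset] at ht
    have htL : l ∉ t := fun h => hl (cp_sub l L (ht h))
    have h1 : Ind inc (insert l t) ↔ Ind inc t := by
      constructor
      · intro h b hb c hc
        exact h b (Finset.mem_insert_of_mem hb) c (Finset.mem_insert_of_mem hc)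
      · intro h b hb c hc hbc
        rw [Finset.mem_insert] at hb hc
        have key : ∀ x ∈ t, ¬ inc l x := by
          intro x hx
          have := ht hx
          unfold cp at this
          rw [Finset.mem_filter] at this
          exact this.2
        rcases hb with rfl | hb <;> rcases hc with rfl | hc
        · exact absurd rfl hbc
        · exact key c hc
        · exact fun h => key b hb (hs _ _ h)
        · exact h b hb c hc hbc
    by_cases h : Ind inc t
    · rw [if_pos h, if_pos (h1.2 h), Finset.prod_insert htL]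
    · rw [if_neg h, if_neg (fun h' => h (h1.1 h')), mul_zero]
  · intro t ht ht2
    rw [Finset.mem_powerset] at ht ht2
    have : ¬ Ind inc (insert l t) := by
      intro h
      apply ht2
      intro b hb
      unfold cp
      rw [Finset.mem_filter]
      refine ⟨ht hb, ?_⟩
      apply h l (Finset.mem_insert_self _ _) b (Finset.mem_insert_of_mem hb)
      rintro rfl
      exact hl (ht hb)
    rw [if_neg this]

lemma P_erase {R : Type*} [CommSemiring R] (hs : ∀ a b, inc a b → inc b a) (a : V → R) {l : V} {L : Finset V}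
    (hl : l ∈ L) : P inc a L = P inc a (L.erase l) + a l * P inc a (cp inc l (L.erase l)) := by
  rw [← P_insert hs a (Finset.notMem_erase l L), Finset.insert_erase hl]

/-- Shearer region. -/
def Sh (inc : V → V → Prop) (b : V → ℝ) (Λ : Finset V) : Prop := ∀ L ⊆ Λ, 0 < P inc (fun l => -b l) L

lemma Sh.mono {b : V → ℝ} {Λ Λ' : Finset V} (h : Sh inc b Λ) (h' : Λ' ⊆ Λ) : Sh inc b Λ' :=
  fun L hL => h L (hL.trans h')

/-- one step down. -/
lemma anti_of {b : V → ℝ} (hs : ∀ a b, inc a b → inc b a) (hb : ∀ l, 0 ≤ b l) {Λ : Finset V}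
    (h : ∀ L ⊆ Λ, 0 ≤ P inc (fun l => -b l) L) {L L' : Finset V} (hL : L ⊆ Λ) (hL' : L' ⊆ L) :
    P inc (fun l => -b l) L ≤ P inc (fun l => -b l) L' := by
  induction hn : (L \ L').card generalizing L with
  | zero =>
    have h1 : L \ L' = ∅ := Finset.card_eq_zero.1 hn
    have h2 : L = L' := Finset.Subset.antisymm (Finset.sdiff_eq_empty_iff_subset.1 h1) hL'
    rw [h2]
  | succ n ih =>
    obtain ⟨l, hl⟩ : (L \ L').Nonempty := by
      rw [← Finset.card_pos]
      omega
    have hl' := Finset.mem_sdiff.1 hl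
    have h3 : L' ⊆ L.erase l := fun a ha => Finset.mem_erase.2 ⟨fun h => hl'.2 (h ▸ ha), hL' ha⟩
    have h4 : (L.erase l) \ L' = (L \ L').erase l := by
      ext a
      simp only [Finset.mem_sdiff, Finset.mem_erase]
      tauto
    have h5 : ((L.erase l) \ L').card = n := by
      rw [h4, Finset.card_erase_of_mem hl, hn]
      rfl
    have h6 := ih ((Finset.erase_subset _ _).trans hL) h3 h5
    have h7 := P_erase hs (fun l => -b l) hl'.1
    have h8 := h (cp inc l (L.erase l)) (((cp_sub _ _).trans (Finset.erase_subset _ _)).trans hL)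
    have h9 : 0 ≤ b l * P inc (fun l => -b l) (cp inc l (L.erase l)) := mul_nonneg (hb l) h8
    rw [h7]
    linarith

lemma Sh.anti {b : V → ℝ} (hs : ∀ a b, inc a b → inc b a) (hb : ∀ l, 0 ≤ b l) {Λ : Finset V}
    (h : Sh inc b Λ) {L L' : Finset V} (hL : L ⊆ Λ) (hL' : L' ⊆ L) :
    P inc (fun l => -b l) L ≤ P inc (fun l => -b l) L' :=
  anti_of hs hb (fun L hL => (h L hL).le) hL hL'

lemma Sh.le_one {b : V → ℝ} (hs : ∀ a b, inc a b → inc b a) (hb : ∀ l, 0 ≤ b l) {Λ : Finset V}
    (h : Sh inc b Λ) {L : Finset V} (hL : L ⊆ Λ) : P inc (fun l => -b l) L ≤ 1 := by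
  have := h.anti hs hb hL (Finset.empty_subset L)
  rwa [P_empty] at this

lemma P_cont {w : V → ℝ} (L : Finset V) : Continuous (fun r : ℝ => P inc (fun l => -(r * w l)) L) := by
  unfold P
  apply continuous_finsetSum
  intro I _
  apply continuous_finsetProd
  intro l _
  exact (continuous_id.mul continuous_const).neg

lemma P_zero (w : V → ℝ) (L : Finset V) : P inc (fun l => -((0 : ℝ) * w l)) L = 1 := by
  unfold P
  rw [Finset.sum_eq_single ∅]
  · rw [Finset.prod_empty]
  · intro I _ hI
    obtain ⟨l, hl⟩ := Finset.nonempty_iff_ne_empty.2 hI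
    apply Finset.prod_eq_zero hl
    rw [zero_mul, neg_zero]
  · intro h
    exact absurd (Finset.mem_filter.2 ⟨Finset.mem_powerset.2 (Finset.empty_subset _), Ind_empty⟩) h

/-- positivity on the whole segment for the full set gives the Shearer region. -/
theorem shearer {w : V → ℝ} (hs : ∀ a b, inc a b → inc b a) (hw : ∀ l, 0 ≤ w l) {Λ : Finset V} {r0 : ℝ}
    (h : ∀ r, 0 ≤ r → r ≤ r0 → 0 < P inc (fun l => -(r * w l)) Λ) {r : ℝ} (h0 : 0 ≤ r) (h1 : r ≤ r0) :
    Sh inc (fun l => r * w l) Λ := by
  have hne : Λ.powerset.Nonempty := ⟨∅, Finset.mem_powerset.2 (Finset.empty_subset _)⟩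
  obtain ⟨m, hm⟩ : ∃ m : ℝ → ℝ, m = fun r => Λ.powerset.inf' hne (fun L => P inc (fun l => -(r * w l)) L) := ⟨_, rfl⟩
  have hmc : Continuous m := by
    rw [hm]
    exact Continuous.finset_inf'_apply hne (fun L _ => P_cont L)
  have hmle : ∀ r, ∀ L ⊆ Λ, m r ≤ P inc (fun l => -(r * w l)) L := by
    intro r L hL
    rw [hm]
    exact Finset.inf'_le _ (Finset.mem_powerset.2 hL)
  have hmex : ∀ r, ∃ L ⊆ Λ, m r = P inc (fun l => -(r * w l)) L := by
    intro r
    obtain ⟨L, hL, hL2⟩ := Finset.exists_mem_eq_inf' hne (fun L => P inc (fun l => -(r * w l)) L)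
    refine ⟨L, Finset.mem_powerset.1 hL, ?_⟩
    rw [hm]
    exact hL2
  have hm0 : m 0 = 1 := by
    obtain ⟨L, _, hL2⟩ := hmex 0
    rw [hL2, P_zero]
  have hpos : 0 < m r := by
    by_contra hneg
    have hiv : (0 : ℝ) ∈ m '' Set.Icc 0 r := by
      apply intermediate_value_Icc' h0 hmc.continuousOn
      rw [hm0]
      exact ⟨not_lt.1 hneg, zero_le_one⟩
    obtain ⟨r1, ⟨h2, h3⟩, h4⟩ := hiv
    obtain ⟨L, hL, hL2⟩ := hmex r1
    have h5 := anti_of (inc := inc) hs (b := fun l => r1 * w l) (fun l => mul_nonneg h2 (hw l)) (Λ := Λ)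
      (fun L hL => by
        have := hmle r1 L hL
        rw [h4] at this
        exact this) (Finset.Subset.refl Λ) hL
    have h6 := h r1 h2 (h3.trans h1)
    rw [h4] at hL2
    linarith
  intro L hL
  exact lt_of_lt_of_le hpos (hmle r L hL)

/-- the smallest modulus is taken at the negative activities. -/
theorem lower {a : V → ℂ} {b : V → ℝ} (hs : ∀ a b, inc a b → inc b a) (hab : ∀ l, ‖a l‖ ≤ b l) {Λ : Finset V}
    (h : Sh inc b Λ) {L L' : Finset V} (hL : L ⊆ Λ) (hL' : L' ⊆ L) :
    ‖P inc a L'‖ * P inc (fun l => -b l) L ≤ ‖P inc a L‖ * P inc (fun l => -b l) L' := by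
  have hb : ∀ l, 0 ≤ b l := fun l => (norm_nonneg _).trans (hab l)
  induction hn : L.card using Nat.strong_induction_on generalizing L L' with
  | _ n ih =>
    by_cases he : L ⊆ L'
    · have h2 : L = L' := Finset.Subset.antisymm he hL'
      rw [h2]
    · obtain ⟨l, hl1, hl2⟩ := Finset.not_subset.1 he
      have h3 : L' ⊆ L.erase l := fun a ha => Finset.mem_erase.2 ⟨fun h => hl2 (h ▸ ha), hL' ha⟩
      have h4 : (L.erase l).card < n := by
        rw [← hn]
        exact Finset.card_erase_lt_of_mem hl1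
      have hM : L.erase l ⊆ Λ := (Finset.erase_subset _ _).trans hL
      have h5 := ih _ h4 hM h3 rfl
      have h6 := ih _ h4 hM (cp_sub (inc := inc) l (L.erase l)) rfl
      have p1 := h _ hM
      have p2 := h _ ((cp_sub (inc := inc) l (L.erase l)).trans hM)
      have p3 := h L' (hL'.trans hL)
      have e1 := P_erase hs a hl1
      have e2 := P_erase hs (fun l => -b l) hl1
      obtain ⟨A, hA⟩ : ∃ A, A = ‖P inc a (L.erase l)‖ := ⟨_, rfl⟩
      obtain ⟨B, hB⟩ : ∃ B, B = P inc (fun l => -b l) (L.erase l) := ⟨_, rfl⟩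
      obtain ⟨A2, hA2⟩ : ∃ A2, A2 = ‖P inc a (cp inc l (L.erase l))‖ := ⟨_, rfl⟩
      obtain ⟨B2, hB2⟩ : ∃ B2, B2 = P inc (fun l => -b l) (cp inc l (L.erase l)) := ⟨_, rfl⟩
      rw [← hA, ← hB] at h5 h6
      rw [← hA2, ← hB2] at h6
      rw [← hB] at p1
      rw [← hB2] at p2
      have h7 : A - b l * A2 ≤ ‖P inc a L‖ := by
        have h8 : A ≤ ‖P inc a L‖ + ‖a l * P inc a (cp inc l (L.erase l))‖ := by
          have h9 : P inc a (L.erase l) = P inc a L - a l * P inc a (cp inc l (L.erase l)) := by
            rw [e1]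
            ring
          rw [hA, h9]
          exact norm_sub_le _ _
        rw [norm_mul, ← hA2] at h8
        have h10 : ‖a l‖ * A2 ≤ b l * A2 := mul_le_mul_of_nonneg_right (hab l) (by rw [hA2]; exact norm_nonneg _)
        linarith
      have e3 : P inc (fun l => -b l) L = B - b l * B2 := by
        rw [e2, ← hB, ← hB2]
        ring
      have p4 : 0 < B - b l * B2 := by
        rw [← e3]
        exact h L hL
      rw [e3]
      -- A2 * B ≤ A * B2 ; A' * B ≤ A * B'
      have k1 : A * (B - b l * B2) ≤ (A - b l * A2) * B := by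
        have : b l * (A2 * B) ≤ b l * (A * B2) := mul_le_mul_of_nonneg_left h6 (hb l)
        nlinarith
      have k2 : A * (B - b l * B2) ≤ ‖P inc a L‖ * B := k1.trans (mul_le_mul_of_nonneg_right h7 p1.le)
      have k3 : ‖P inc a L'‖ * (B - b l * B2) * B ≤ ‖P inc a L‖ * P inc (fun l => -b l) L' * B := by
        calc ‖P inc a L'‖ * (B - b l * B2) * B = (‖P inc a L'‖ * B) * (B - b l * B2) := by ring
          _ ≤ (A * P inc (fun l => -b l) L') * (B - b l * B2) := mul_le_mul_of_nonneg_right h5 p4.le
          _ = (A * (B - b l * B2)) * P inc (fun l => -b l) L' := by ring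
          _ ≤ (‖P inc a L‖ * B) * P inc (fun l => -b l) L' := mul_le_mul_of_nonneg_right k2 p3.le
          _ = ‖P inc a L‖ * P inc (fun l => -b l) L' * B := by ring
      exact le_of_mul_le_mul_right k3 p1

end NUHC
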